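import Pool.Agent.Helper95.AF.Defs
import Pool.Agent.Helper82.QP.Tor
import Pool.Agent.Helper95.PV.Bas

/-! Project AF, block FX: large exponents almost everywhere on the whole space.

`B = {lam < 15/16 log |a|}` is invariant, so its fibres have the same volume `β` for almost every `θ` (the rotation is ergodic
and the fibre maps preserve the volume). By `Lv` the growth is at least `r θ` outside a set of volume `ε` in every fibre, so
`∫_B log gA ≥ (β - ε) ∫ r`. In the limit `∫_B lam ≥ β 15/16 log |a|`, which is impossible for `β > 0`. -/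

set_option autoImplicit false
open MeasureTheory Real Set Filter Topology
open scoped ENNReal

namespace Pool.Agent.Helper63.AF

open Pool.Agent.Helper18.UC (nn LL sqo rep toT)
open Pool.Agent.Helper46.QP (TT Td)
open Pool.Agent.Helper82.AN (Ik Ow lawL wt bas eta Hw sq SepR)
open Pool.Agent.Helper95.AF

variable {d : ℕ}

/-! ### the torus version of the cocycle -/

private noncomputable def ob (a : ℝ) (b : ℕ → ℝ) (z : TT) : ℕ → TT
  | 0 => z
  | n + 1 => tst a (b n) (ob a b z n)

private noncomputable def mx (a : ℝ) (b : ℕ → ℝ) (z : TT) : ℕ → Matrix (Fin 2) (Fin 2) ℝ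
  | 0 => 1
  | n + 1 => !![2 + 2 * π * a * (fourier 1 (ob a b z n).1 : ℂ).re, -1; 1, 0] * mx a b z n

private theorem f_coe (x : ℝ) : (fourier 1 (x : UnitAddCircle) : ℂ) = Complex.exp (2 * π * Complex.I * x) := by
  rw [fourier_coe_apply]
  congr 1
  push_cast
  ring

private theorem f_re (x : ℝ) : (fourier 1 (x : UnitAddCircle) : ℂ).re = Real.cos (2 * π * x) := by
  have e : (2 * π * Complex.I * x : ℂ) = ((2 * π * x : ℝ) : ℂ) * Complex.I := by
    push_cast
    ring
  rw [f_coe, e, Complex.exp_ofReal_mul_I_re]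

private theorem f_im (x : ℝ) : (fourier 1 (x : UnitAddCircle) : ℂ).im = Real.sin (2 * π * x) := by
  have e : (2 * π * Complex.I * x : ℂ) = ((2 * π * x : ℝ) : ℂ) * Complex.I := by
    push_cast
    ring
  rw [f_coe, e, Complex.exp_ofReal_mul_I_im]

private theorem toT_st (a β : ℝ) (q : ℝ × ℝ) : toT (st a β q) = tst a β (toT q) := by
  unfold toT st tst
  refine Prod.ext ?_ rfl
  show ((2 * q.1 - q.2 + a * Real.sin (2 * π * q.1) + β : ℝ) : UnitAddCircle) =
    (q.1 : UnitAddCircle) + (q.1 : UnitAddCircle) - (q.2 : UnitAddCircle) +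
      ((a * (fourier 1 (q.1 : UnitAddCircle) : ℂ).im + β : ℝ) : UnitAddCircle)
  rw [f_im, ← AddCircle.coe_add, ← AddCircle.coe_sub, ← AddCircle.coe_add, two_mul, add_assoc]

private theorem toT_po (a : ℝ) (b : ℕ → ℝ) (n : ℕ) (q : ℝ × ℝ) : toT (po a b n q) = ob a b (toT q) n := by
  induction n with
  | zero => rfl
  | succ n ih =>
    show toT (st a (b n) (po a b n q)) = tst a (b n) (ob a b (toT q) n)
    rw [toT_st, ih]

private theorem mx_toT (a : ℝ) (b : ℕ → ℝ) (n : ℕ) (q : ℝ × ℝ) : mx a b (toT q) n = pM a b n q := by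
  induction n with
  | zero => rfl
  | succ n ih =>
    show !![2 + 2 * π * a * (fourier 1 (ob a b (toT q) n).1 : ℂ).re, -1; 1, 0] * mx a b (toT q) n =
      mt a (po a b n q).1 * pM a b n q
    rw [ih, ← toT_po]
    have : (fourier 1 (toT (po a b n q)).1 : ℂ).re = Real.cos (2 * π * (po a b n q).1) := f_re _
    rw [this]
    rfl

private theorem gA_eq (α : Td d) (a : ℝ) (b : Td d → ℝ) (n : ℕ) (p : Td d × TT) :
    gA α a b n p = nn (mx a (sq α b p.1) p.2 n) := by
  unfold gA
  rw [← mx_toT, Pool.Agent.Helper18.UC.toT_rep]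

private theorem cont_im : Continuous fun x : UnitAddCircle => (fourier 1 x : ℂ).im :=
  Complex.continuous_im.comp (fourier 1).continuous

private theorem cont_re : Continuous fun x : UnitAddCircle => (fourier 1 x : ℂ).re :=
  Complex.continuous_re.comp (fourier 1).continuous

private theorem tst_cont (a : ℝ) : Continuous fun p : ℝ × TT => tst a p.1 p.2 := by
  have hx : Continuous fun p : ℝ × TT => p.2.1 := continuous_fst.comp continuous_snd
  have hy : Continuous fun p : ℝ × TT => p.2.2 := continuous_snd.comp continuous_snd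
  have h1 : Continuous fun p : ℝ × TT => ((a * (fourier 1 p.2.1 : ℂ).im + p.1 : ℝ) : UnitAddCircle) :=
    (AddCircle.continuous_mk' 1).comp (((cont_im.comp hx).const_mul a).add continuous_fst)
  unfold tst
  exact (((hx.add hx).sub hy).add h1).prodMk hx

private theorem ob_cont {α : Td d} (a : ℝ) {b : Td d → ℝ} (hb : Continuous b) (n : ℕ) :
    Continuous fun p : Td d × TT => ob a (sq α b p.1) p.2 n := by
  induction n with
  | zero => exact continuous_snd
  | succ n ih =>
    have h1 : Continuous fun p : Td d × TT => ((sq α b p.1 n, ob a (sq α b p.1) p.2 n) : ℝ × TT) := by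
      refine Continuous.prodMk ?_ ih
      unfold Pool.Agent.Helper82.AN.sq
      exact hb.comp (continuous_fst.add continuous_const)
    exact (tst_cont a).comp h1

private theorem mx_cont {α : Td d} (a : ℝ) {b : Td d → ℝ} (hb : Continuous b) (n : ℕ) :
    Continuous fun p : Td d × TT => mx a (sq α b p.1) p.2 n := by
  induction n with
  | zero => exact continuous_const
  | succ n ih =>
    have h1 : Continuous fun p : Td d × TT =>
        (!![2 + 2 * π * a * (fourier 1 (ob a (sq α b p.1) p.2 n).1 : ℂ).re, -1; 1, 0] : Matrix (Fin 2) (Fin 2) ℝ) := by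
      refine continuous_matrix fun i j => ?_
      fin_cases i <;> fin_cases j
      · exact continuous_const.add ((cont_re.comp (continuous_fst.comp (ob_cont a hb n))).const_mul _)
      · exact continuous_const
      · exact continuous_const
      · exact continuous_const
    exact h1.matrix_mul ih

private theorem gA_cont {α : Td d} (a : ℝ) {b : Td d → ℝ} (hb : Continuous b) (n : ℕ) : Continuous (gA α a b n) := by
  have e : gA α a b n = fun p => nn (mx a (sq α b p.1) p.2 n) := funext fun p => gA_eq α a b n p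
  rw [e]
  have h := mx_cont (α := α) a hb n
  have hij : ∀ i j : Fin 2, Continuous fun p : Td d × TT => |mx a (sq α b p.1) p.2 n i j| := fun i j =>
    (h.matrix_elem i j).abs
  unfold Pool.Agent.Helper18.UC.nn
  exact (((hij 0 0).add (hij 0 1)).add (hij 1 0)).add (hij 1 1)

private theorem det_pM (a : ℝ) (b : ℕ → ℝ) (n : ℕ) (q : ℝ × ℝ) : (pM a b n q).det = 1 := by
  induction n with
  | zero => exact Matrix.det_one
  | succ n ih =>
    show (mt a (po a b n q).1 * pM a b n q).det = 1
    rw [Matrix.det_mul, ih]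
    unfold Pool.Agent.Helper95.AF.mt
    rw [Matrix.det_fin_two_of]
    ring

private theorem gA_ge (α : Td d) (a : ℝ) (b : Td d → ℝ) (n : ℕ) (p : Td d × TT) : 2 ≤ gA α a b n p :=
  Pool.Agent.Helper95.PV.nn_ge_two (det_pM _ _ _ _)

private theorem log_nonneg' (α : Td d) (a : ℝ) (b : Td d → ℝ) (n : ℕ) (p : Td d × TT) :
    0 ≤ Real.log (gA α a b n p) := Real.log_nonneg (by linarith [gA_ge α a b n p])

private theorem nn_pM_le (a : ℝ) (b : ℕ → ℝ) (n : ℕ) (q : ℝ × ℝ) :
    nn (pM a b n q) ≤ 2 * (2 * π * |a| + 4) ^ n := by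
  induction n with
  | zero =>
    show nn (1 : Matrix (Fin 2) (Fin 2) ℝ) ≤ _
    rw [Pool.Agent.Helper18.UC.nn_one]
    simp
  | succ n ih =>
    have h1 : nn (mt a (po a b n q).1) ≤ 2 * π * |a| + 4 := by
      have e : nn (mt a (po a b n q).1) = |2 + 2 * π * a * Real.cos (2 * π * (po a b n q).1)| + 2 :=
        Pool.Agent.Helper95.PV.nn_mv _
      rw [e]
      have h2 : |2 + 2 * π * a * Real.cos (2 * π * (po a b n q).1)| ≤ 2 + 2 * π * |a| := by
        refine (abs_add_le _ _).trans ?_
        rw [abs_mul, abs_mul, abs_of_pos (show (0 : ℝ) < 2 * π by positivity), abs_of_pos (show (0 : ℝ) < 2 by norm_num)]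
        have h3 : |Real.cos (2 * π * (po a b n q).1)| ≤ 1 := Real.abs_cos_le_one _
        have h4 : 0 ≤ 2 * π * |a| := by positivity
        nlinarith
      linarith
    have h0 : 0 ≤ nn (pM a b n q) := Pool.Agent.Helper18.UC.nn_nonneg _
    calc nn (pM a b (n + 1) q) ≤ nn (mt a (po a b n q).1) * nn (pM a b n q) := Pool.Agent.Helper18.UC.nn_mul _ _
      _ ≤ (2 * π * |a| + 4) * (2 * (2 * π * |a| + 4) ^ n) := by
          refine mul_le_mul h1 ih h0 ?_
          positivity
      _ = 2 * (2 * π * |a| + 4) ^ (n + 1) := by ring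

private theorem log_le' (α : Td d) (a : ℝ) (b : Td d → ℝ) (n : ℕ) (p : Td d × TT) :
    Real.log (gA α a b n p) ≤ Real.log 2 + n * Real.log (2 * π * |a| + 4) := by
  have h0 : (0 : ℝ) < 2 * π * |a| + 4 := by positivity
  have h1 : gA α a b n p ≤ 2 * (2 * π * |a| + 4) ^ n := nn_pM_le _ _ _ _
  have h2 : 0 < gA α a b n p := by linarith [gA_ge α a b n p]
  refine (Real.log_le_log h2 h1).trans ?_
  rw [Real.log_mul (by norm_num) (by positivity), Real.log_pow]

private theorem bd (α : Td d) (a : ℝ) (b : Td d → ℝ) {n : ℕ} (hn : n ≠ 0) (p : Td d × TT) :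
    |Real.log (gA α a b n p) / n| ≤ Real.log 2 + Real.log (2 * π * |a| + 4) := by
  have hn0 : (0 : ℝ) < n := by exact_mod_cast Nat.pos_of_ne_zero hn
  rw [abs_div, abs_of_pos hn0, div_le_iff₀ hn0, abs_of_nonneg (log_nonneg' α a b n p)]
  refine (log_le' α a b n p).trans ?_
  have hn1 : (1 : ℝ) ≤ n := by exact_mod_cast Nat.one_le_iff_ne_zero.2 hn
  have h3 : 0 ≤ Real.log 2 := Real.log_nonneg one_le_two
  nlinarith

private theorem tst_mp (a β : ℝ) : MeasurePreserving (tst a β) (volume : Measure TT) volume := by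
  have hc : Measurable fun x : UnitAddCircle => x + x + ((a * (fourier 1 x : ℂ).im + β : ℝ) : UnitAddCircle) := by
    have h1 : Continuous fun x : UnitAddCircle => ((a * (fourier 1 x : ℂ).im + β : ℝ) : UnitAddCircle) :=
      (AddCircle.continuous_mk' 1).comp ((cont_im.const_mul a).add continuous_const)
    exact ((continuous_id.add continuous_id).add h1).measurable
  have hg : Measurable (Function.uncurry fun x y : UnitAddCircle =>
      x + x + ((a * (fourier 1 x : ℂ).im + β : ℝ) : UnitAddCircle) - y) :=
    (hc.comp measurable_fst).sub measurable_snd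
  have h := (MeasurePreserving.id (volume : Measure UnitAddCircle)).skew_product
    (μc := (volume : Measure UnitAddCircle)) (μd := (volume : Measure UnitAddCircle))
    (g := fun x y : UnitAddCircle => x + x + ((a * (fourier 1 x : ℂ).im + β : ℝ) : UnitAddCircle) - y) hg
    (Filter.Eventually.of_forall fun x => (Measure.measurePreserving_sub_left volume _).map_eq)
  have h2 := (Measure.measurePreserving_swap (μ := (volume : Measure UnitAddCircle))
    (ν := (volume : Measure UnitAddCircle))).comp h
  have e : tst a β = Prod.swap ∘ fun p : UnitAddCircle × UnitAddCircle =>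
      (id p.1, p.1 + p.1 + ((a * (fourier 1 p.1 : ℂ).im + β : ℝ) : UnitAddCircle) - p.2) := by
    funext p
    refine Prod.ext ?_ rfl
    show p.1 + p.1 - p.2 + ((a * (fourier 1 p.1 : ℂ).im + β : ℝ) : UnitAddCircle) =
      p.1 + p.1 + ((a * (fourier 1 p.1 : ℂ).im + β : ℝ) : UnitAddCircle) - p.2
    abel
  rw [e]
  exact h2

/-! ### the fibres of an invariant set -/

private theorem fib_const {α : Td d} (hind : ∀ k : Fin d → ℤ, k ≠ 0 → ∑ m, k m • α m ≠ 0) {a : ℝ} {b : Td d → ℝ}
    {lam : Td d × TT → ℝ} (hm : Measurable lam) (hinv : ∀ᵐ p, lam (Fa α a b p) = lam p) (c : ℝ) :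
    ∃ β : ℝ≥0∞, ∀ᵐ θ : Td d, volume {z : TT | lam (θ, z) < c} = β := by
  have hBm : MeasurableSet {p : Td d × TT | lam p < c} := measurableSet_lt hm measurable_const
  have hφm : Measurable fun θ : Td d => volume {z : TT | lam (θ, z) < c} :=
    measurable_measure_prodMk_left (ν := (volume : Measure TT)) hBm
  have hφi : (fun θ : Td d => volume {z : TT | lam (θ, z) < c}) ∘ (fun θ => θ + α) =ᵐ[volume]
      fun θ : Td d => volume {z : TT | lam (θ, z) < c} := by
    have h1 := Measure.ae_ae_of_ae_prod hinv
    filter_upwards [h1] with θ hθ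
    have e : {z : TT | lam (θ, z) < c} =ᵐ[volume] tst a (b θ) ⁻¹' {z : TT | lam (θ + α, z) < c} := by
      filter_upwards [hθ] with z hz
      have hz' : lam (θ + α, tst a (b θ) z) = lam (θ, z) := hz
      show (lam (θ, z) < c) = (lam (θ + α, tst a (b θ) z) < c)
      rw [hz']
    show volume {z : TT | lam (θ + α, z) < c} = volume {z : TT | lam (θ, z) < c}
    rw [measure_congr e, (tst_mp a (b θ)).measure_preimage]
    exact (measurable_prodMk_left hBm).nullMeasurableSet
  obtain ⟨β, hβ⟩ := (Pool.Agent.Helper82.QP.rot_erg hind).quasiErgodic.ae_eq_const_of_ae_eq_comp_ae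
    hφm.aestronglyMeasurable hφi
  exact ⟨β, hβ⟩

/-- lower bound for the integral over the invariant set at one time -/
private theorem int_ge {α : Td d} {a : ℝ} {b : Td d → ℝ} (hb : Continuous b) {lam : Td d × TT → ℝ} (hm : Measurable lam)
    {c : ℝ} {β : ℝ≥0∞} (hβ : ∀ᵐ θ : Td d, volume {z : TT | lam (θ, z) < c} = β) {ε : ℝ} (hε : 0 ≤ ε) {N : ℕ}
    {r : Td d → ℝ} (hr : Measurable r) (hr0 : ∀ θ, 0 ≤ r θ) (hrK : ∃ K, ∀ θ, r θ ≤ K)
    (hbad : ∀ θ, volume {z : TT | Real.log (gA α a b N (θ, z)) < r θ} ≤ ENNReal.ofReal ε) :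
    (β.toReal - ε) * ∫ θ, r θ ≤ ∫ p in {p : Td d × TT | lam p < c}, Real.log (gA α a b N p) := by
  obtain ⟨K, hK⟩ := hrK
  have hBm : MeasurableSet {p : Td d × TT | lam p < c} := measurableSet_lt hm measurable_const
  have hgm : Measurable fun p : Td d × TT => Real.log (gA α a b N p) := (gA_cont a hb N).measurable.log
  have hFi : Integrable ({p : Td d × TT | lam p < c}.indicator fun p => Real.log (gA α a b N p))
      ((volume : Measure (Td d)).prod (volume : Measure TT)) := by
    refine Integrable.of_bound (hgm.indicator hBm).aestronglyMeasurable (Real.log 2 + N * Real.log (2 * π * |a| + 4))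
      (Eventually.of_forall fun p => ?_)
    rw [Real.norm_eq_abs]
    by_cases hp : p ∈ {p : Td d × TT | lam p < c}
    · rw [indicator_of_mem hp, abs_of_nonneg (log_nonneg' α a b N p)]
      exact log_le' α a b N p
    · rw [indicator_of_notMem hp, abs_zero]
      have h0 : (0 : ℝ) ≤ Real.log (gA α a b N p) := log_nonneg' α a b N p
      exact h0.trans (log_le' α a b N p)
  have hri : Integrable r (volume : Measure (Td d)) := by
    refine Integrable.of_bound hr.aestronglyMeasurable K (Eventually.of_forall fun θ => ?_)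
    rw [Real.norm_eq_abs, abs_of_nonneg (hr0 θ)]
    exact hK θ
  rw [← integral_indicator hBm]
  rw [show (volume : Measure (Td d × TT)) = (volume : Measure (Td d)).prod (volume : Measure TT) from rfl,
    integral_prod _ hFi, ← integral_const_mul]
  refine integral_mono_ae (hri.const_mul _) hFi.integral_prod_left ?_
  filter_upwards [hβ, hFi.prod_right_ae] with θ hθ hFθ
  set S : Set TT := {z : TT | lam (θ, z) < c} \ {z : TT | Real.log (gA α a b N (θ, z)) < r θ} with hS
  have hbm : MeasurableSet {z : TT | Real.log (gA α a b N (θ, z)) < r θ} :=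
    measurableSet_lt (hgm.comp measurable_prodMk_left) measurable_const
  have hcm : MeasurableSet {z : TT | lam (θ, z) < c} := measurableSet_lt (hm.comp measurable_prodMk_left) measurable_const
  have hSm : MeasurableSet S := hcm.diff hbm
  have h1 : β.toReal ≤ volume.real S + ε := by
    have h2 : β ≤ volume S + ENNReal.ofReal ε := by
      rw [← hθ]
      calc volume {z : TT | lam (θ, z) < c} ≤ volume (S ∪ {z : TT | Real.log (gA α a b N (θ, z)) < r θ}) := by
            refine measure_mono fun z hz => ?_
            by_cases hz2 : z ∈ {z : TT | Real.log (gA α a b N (θ, z)) < r θ}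
            · exact Or.inr hz2
            · exact Or.inl ⟨hz, hz2⟩
        _ ≤ volume S + volume {z : TT | Real.log (gA α a b N (θ, z)) < r θ} := measure_union_le _ _
        _ ≤ volume S + ENNReal.ofReal ε := by gcongr; exact hbad θ
    have h3 := ENNReal.toReal_mono (ENNReal.add_ne_top.2 ⟨measure_ne_top _ _, ENNReal.ofReal_ne_top⟩) h2
    rw [ENNReal.toReal_add (measure_ne_top _ _) ENNReal.ofReal_ne_top, ENNReal.toReal_ofReal hε] at h3
    exact h3
  have h4 : ∫ z, S.indicator (fun _ => r θ) z ≤
      ∫ z, ({p : Td d × TT | lam p < c}.indicator fun p => Real.log (gA α a b N p)) (θ, z) := by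
    refine integral_mono ((integrable_const _).indicator hSm) hFθ fun z => ?_
    by_cases hz : z ∈ S
    · have hz1 : (θ, z) ∈ {p : Td d × TT | lam p < c} := hz.1
      rw [indicator_of_mem hz, indicator_of_mem hz1]
      exact not_lt.1 hz.2
    · rw [indicator_of_notMem hz]
      exact indicator_nonneg (fun p _ => log_nonneg' α a b N p) _
  rw [integral_indicator hSm, setIntegral_const, smul_eq_mul] at h4
  refine le_trans ?_ h4
  exact mul_le_mul_of_nonneg_right (by linarith) (hr0 θ)

theorem fin_exp {α : Td d} (hind : ∀ k : Fin d → ℤ, k ≠ 0 → ∑ m, k m • α m ≠ 0) {a : ℝ} (ha : 10 ≤ |a|) {b : Td d → ℝ}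
    (hb : Continuous b) (h : Lv α a b) {lam : Td d × TT → ℝ} (hm : Measurable lam)
    (hinv : ∀ᵐ p, lam (Fa α a b p) = lam p)
    (hl : ∀ᵐ p, Tendsto (fun n : ℕ => Real.log (gA α a b n p) / n) atTop (𝓝 (lam p))) :
    ∀ᵐ p, 15 / 16 * Real.log |a| ≤ lam p := by
  set c := 15 / 16 * Real.log |a| with hc
  have hc0 : 0 < c := by
    have : 0 < Real.log |a| := Real.log_pos (by linarith)
    positivity
  set C := Real.log 2 + Real.log (2 * π * |a| + 4) with hC
  obtain ⟨β, hβ⟩ := fib_const hind hm hinv c
  set B : Set (Td d × TT) := {p | lam p < c} with hB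
  have hBm : MeasurableSet B := measurableSet_lt hm measurable_const
  have hvB : volume B = β := by
    rw [show (volume : Measure (Td d × TT)) = (volume : Measure (Td d)).prod (volume : Measure TT) from rfl,
      Measure.prod_apply hBm]
    have : ∫⁻ θ : Td d, volume (Prod.mk θ ⁻¹' B) = ∫⁻ _ : Td d, β := lintegral_congr_ae (by
      filter_upwards [hβ] with θ hθ
      exact hθ)
    rw [this, lintegral_const, measure_univ, mul_one]
  have hβr : volume.real B = β.toReal := by rw [measureReal_def, hvB]
  by_contra hne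
  have hβ0 : β ≠ 0 := by
    intro h0
    apply hne
    rw [ae_iff]
    rw [h0] at hvB
    refine measure_mono_null (fun p hp => ?_) hvB
    exact not_le.1 hp
  have hβt : β ≠ ∞ := by
    rw [← hvB]
    exact measure_ne_top _ _
  have hβp : 0 < β.toReal := ENNReal.toReal_pos hβ0 hβt
  -- the limit is bounded
  have hlb : ∀ᵐ p : Td d × TT, ‖lam p‖ ≤ C := by
    filter_upwards [hl] with p hp
    rw [Real.norm_eq_abs]
    refine le_of_tendsto hp.abs ?_
    filter_upwards [eventually_ne_atTop 0] with n hn
    exact bd α a b hn p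
  have hli : Integrable lam (volume : Measure (Td d × TT)) := Integrable.of_bound hm.aestronglyMeasurable C hlb
  -- dominated convergence
  have hdom : Tendsto (fun n : ℕ => (∫ p in B, Real.log (gA α a b n p)) / (n : ℝ)) atTop (𝓝 (∫ p in B, lam p)) := by
    refine (tendsto_add_atTop_iff_nat 1).1 ?_
    have h1 := tendsto_integral_of_dominated_convergence (μ := volume.restrict B)
      (F := fun n : ℕ => fun p => Real.log (gA α a b (n + 1) p) / ((n + 1 : ℕ) : ℝ)) (f := lam)
      (fun _ => C)
      (fun n => ((gA_cont a hb (n + 1)).measurable.log.div_const _).aestronglyMeasurable)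
      (integrable_const _)
      (fun n => Eventually.of_forall fun p => bd α a b (Nat.succ_ne_zero n) p)
      (by
        filter_upwards [ae_restrict_of_ae hl] with p hp
        exact (tendsto_add_atTop_iff_nat 1).2 hp)
    refine h1.congr fun n => ?_
    rw [integral_div]
  have hge : ∀ ε : ℝ, 0 < ε → ε ≤ β.toReal → (β.toReal - ε) * c ≤ ∫ p in B, lam p := by
    intro ε hε hεβ
    refine ge_of_tendsto_of_frequently hdom ?_
    rw [Filter.frequently_atTop]
    intro n₀
    obtain ⟨N, hN, r, hr, hr0, hrK, hbad, hint⟩ := h ε hε (n₀ + 1)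
    refine ⟨N, by omega, ?_⟩
    have hN0 : (0 : ℝ) < N := by
      have : 0 < N := by omega
      exact_mod_cast this
    rw [le_div_iff₀ hN0]
    refine le_trans ?_ (int_ge hb hm hβ hε.le hr hr0 hrK hbad)
    calc (β.toReal - ε) * c * N = (β.toReal - ε) * (15 / 16 * N * Real.log |a|) := by rw [hc]; ring
      _ ≤ (β.toReal - ε) * ∫ θ, r θ := mul_le_mul_of_nonneg_left hint (by linarith)
  have hge2 : β.toReal * c ≤ ∫ p in B, lam p := by
    by_contra hlt
    push Not at hlt
    set I := ∫ p in B, lam p with hI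
    have h1 := hge (min β.toReal ((β.toReal * c - I) / (2 * c))) (lt_min hβp (div_pos (by linarith) (by linarith)))
      (min_le_left _ _)
    have h2 : min β.toReal ((β.toReal * c - I) / (2 * c)) * c ≤ (β.toReal * c - I) / 2 := by
      calc min β.toReal ((β.toReal * c - I) / (2 * c)) * c ≤ ((β.toReal * c - I) / (2 * c)) * c :=
            mul_le_mul_of_nonneg_right (min_le_right _ _) hc0.le
        _ = (β.toReal * c - I) / 2 := by
            field_simp
    nlinarith
  -- contradiction
  have h5 : ∫ p in B, (c - lam p) = 0 := by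
    refine le_antisymm ?_ (setIntegral_nonneg hBm fun p hp => ?_)
    · rw [integral_sub (integrable_const _) hli.integrableOn, setIntegral_const, smul_eq_mul, hβr]
      linarith
    · have : lam p < c := hp
      linarith
  have h6 : (fun p => c - lam p) =ᵐ[volume.restrict B] 0 := by
    refine (setIntegral_eq_zero_iff_of_nonneg_ae ?_ ?_).1 h5
    · rw [Filter.EventuallyLE, ae_restrict_iff' hBm]
      refine Eventually.of_forall fun p hp => ?_
      have : lam p < c := hp
      simp only [Pi.zero_apply]
      linarith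
    · exact ((integrable_const _).sub hli).integrableOn
  rw [Filter.EventuallyEq, ae_restrict_iff' hBm] at h6
  apply hβ0
  rw [← hvB]
  have h7 : ∀ᵐ p : Td d × TT, p ∉ B := by
    filter_upwards [h6] with p hp hpB
    have h8 := hp hpB
    simp only [Pi.zero_apply] at h8
    have : lam p < c := hpB
    linarith
  rw [ae_iff] at h7
  refine measure_mono_null (fun p hp => ?_) h7
  exact not_not.2 hp

end Pool.Agent.Helper63.AF
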